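import Mathlib
import Pool.Agent.Helper19.V3.Collin

set_option autoImplicit false

/-!
# Planes from collineations of a plane with given centre
-/

namespace Pool.Agent.Helper19.G4

open Finset Pool.Agent.V11100.VB Pool.Agent.Helper19.VS Pool.Agent.Helper19.V3

variable {V : Type} [DecidableEq V] {B : Finset (Finset V)} {q : ℕ}

/-- a plane through a third point of the block of two Veblen points of a three-dimensional
subsystem -/
structure Fr (B : Finset (Finset V)) (q : ℕ) (A S : Finset V) (e f z : V) : Prop where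
  H : LS B q
  ve : Veblen B e
  vf : Veblen B f
  hef : e ≠ f
  hz : z ∈ bl B e f
  PA : Pla B q A
  T : Spc B q S
  zA : z ∈ A
  AS : A ⊆ S
  ne : e ∉ A
  nf : f ∉ A
  se : e ∈ S
  sf : f ∈ S

/-- a plane through `z` but not through `e`, `f` -/
structure Thru (B : Finset (Finset V)) (q : ℕ) (S : Finset V) (e f z : V) (C : Finset V) :
    Prop where
  P : Pla B q C
  sub : C ⊆ S
  z : z ∈ C
  ne : e ∉ C
  nf : f ∉ C

section

variable {A S : Finset V} {e f z : V} (F : Fr B q A S e f z)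
include F

theorem Fr.ze : e ≠ z := fun h => F.ne (h ▸ F.zA)
theorem Fr.zf : f ≠ z := fun h => F.nf (h ▸ F.zA)
theorem Fr.zS : z ∈ S := F.AS F.zA

theorem Fr.thruA : Thru B q S e f z A := ⟨F.PA, F.AS, F.zA, F.ne, F.nf⟩

/-- the block `ef` meets a plane as in `Thru` only in `z` -/
theorem Fr.only {C : Finset V} (hC : Thru B q S e f z C) {t : V} (ht : t ∈ C)
    (h : t ∈ bl B e f) : t = z :=
  one_pt F.H hC.P.cl (F.H.bB F.hef) hC.ne (F.H.b1 F.hef) ht hC.z h F.hz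

/-- a block through `e` and a point off the block `ef` -/
theorem Fr.off {t : V} (ht : t ∉ bl B e f) : e ≠ t ∧ f ≠ t ∧ f ∉ bl B e t ∧ e ∉ bl B f t := by
  have H := F.H
  have h1 : e ≠ t := fun h => ht (h ▸ H.b1 F.hef)
  have h2 : f ≠ t := fun h => ht (h ▸ H.b2 F.hef)
  refine ⟨h1, h2, fun h => ht ?_, fun h => ht ?_⟩
  · rw [bl_of H h1 (H.b1 h1) h F.hef]
    exact H.b2 h1
  · rw [bl_of H h2 h (H.b1 h2) F.hef]
    exact H.b2 h2

/-- the two projections to a plane -/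
theorem Fr.pe {C : Finset V} (hC : Thru B q S e f z C) {x : V} (hx : x ∈ S) (hxe : x ≠ e) :
    pj B e C x ∈ C ∧ pj B e C x ∈ bl B e x :=
  pj_spec F.H F.T F.se hC.P hC.sub hC.ne hx hxe

theorem Fr.pf {C : Finset V} (hC : Thru B q S e f z C) {x : V} (hx : x ∈ S) (hxf : x ≠ f) :
    pj B f C x ∈ C ∧ pj B f C x ∈ bl B f x :=
  pj_spec F.H F.T F.sf hC.P hC.sub hC.nf hx hxf

theorem Fr.pe_uniq {C : Finset V} (hC : Thru B q S e f z C) {x : V} (hx : x ∈ S) (hxe : x ≠ e)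
    {y : V} (hy : y ∈ C) (hyx : y ∈ bl B e x) : pj B e C x = y :=
  pj_uniq F.H F.T F.se hC.P hC.sub hC.ne hx hxe hy hyx

theorem Fr.pf_uniq {C : Finset V} (hC : Thru B q S e f z C) {x : V} (hx : x ∈ S) (hxf : x ≠ f)
    {y : V} (hy : y ∈ C) (hyx : y ∈ bl B f x) : pj B f C x = y :=
  pj_uniq F.H F.T F.sf hC.P hC.sub hC.nf hx hxf hy hyx

/-- turning `y ∈ ex` around -/
theorem Fr.flip {a x y : V} (hx : a ≠ x) (hy : a ≠ y) (h : y ∈ bl B a x) : x ∈ bl B a y := by
  rw [bl_of F.H hx (F.H.b1 hx) h hy]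
  exact F.H.b2 hx

/-- the plane of `e`, `f` and a block of `A` through `z` -/
theorem Fr.omega {k : Finset V} (hk : k ∈ B) (hkA : k ⊆ A) (zk : z ∈ k) :
    ∃ Ω, Pla B q Ω ∧ e ∈ Ω ∧ f ∈ Ω ∧ k ⊆ Ω ∧ ∀ t ∈ A, t ∈ Ω → t ∈ k := by
  have H := F.H
  have hek : e ∉ k := fun h => F.ne (hkA h)
  have Q := pla_pl H F.ve hk hek
  have e1 : e ∈ pl B e k := H.p_mem hk hek
  have e2 : k ⊆ pl B e k := H.L_sub hek
  refine ⟨pl B e k, Q, e1, ?_, e2, ?_⟩
  · have := Q.cl e e1 z (e2 zk) F.ze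
    rw [bl_of H F.hef (H.b1 F.hef) F.hz F.ze] at this
    exact this (H.b2 F.hef)
  · intro t htA htΩ
    by_contra hcon
    apply F.ne
    rw [F.PA.uniq H Q htA htΩ hk hkA e2 hcon]
    exact e1

/-- the block `ef` is in every plane that contains `e` and `f` -/
theorem Fr.uniq2 {t t' u v : V} (ht : t ∉ bl B e f) (ht' : t' ∉ bl B e f)
    (hu : u ∈ bl B e t) (hu' : u ∈ bl B f t') (hv : v ∈ bl B e t) (hv' : v ∈ bl B f t') :
    u = v := by
  have H := F.H
  obtain ⟨h1, h2, h3, h4⟩ := F.off ht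
  obtain ⟨g1, g2, g3, g4⟩ := F.off ht'
  refine H.pt (H.bB h1) (H.bB g2) ?_ hu hu' hv hv'
  intro h
  exact h3 (h ▸ H.b1 g2)

end

/-- the points of the plane belonging to a collineation -/
noncomputable def lf (B : Finset (Finset V)) (A S : Finset V) (e f z : V) (φ : V → V) :
    Finset V :=
  insert z ((S \ bl B e f).filter fun v => φ (pj B e A v) = pj B f A v)

theorem mem_lf {A S : Finset V} {e f z : V} {φ : V → V} {v : V} : v ∈ lf B A S e f z φ ↔
    v = z ∨ (v ∈ S ∧ v ∉ bl B e f ∧ φ (pj B e A v) = pj B f A v) := by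
  unfold lf
  rw [mem_insert, mem_filter, mem_sdiff, and_assoc]

/-- on every block through `z` the collineation is given by a plane -/
def Lam (B : Finset (Finset V)) (q : ℕ) (A S : Finset V) (e f z : V) (φ : V → V) : Prop :=
  ∀ k ∈ B, k ⊆ A → z ∈ k → ∃ C, Thru B q S e f z C ∧ ∀ t ∈ k, φ t = pj B f A (pj B e C t)

section

variable {A S : Finset V} {e f z : V} (F : Fr B q A S e f z)
include F

theorem Fr.memL {φ : V → V} {v : V} (hv : v ∈ lf B A S e f z φ) (hvz : v ≠ z) :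
    v ∈ S ∧ v ∉ bl B e f ∧ e ≠ v ∧ f ≠ v ∧ pj B e A v ∈ A ∧ pj B e A v ∈ bl B e v ∧
      pj B f A v ∈ A ∧ pj B f A v ∈ bl B f v ∧ φ (pj B e A v) = pj B f A v ∧
      pj B e A v ∉ bl B e f ∧ pj B f A v ∉ bl B e f := by
  have H := F.H
  rcases mem_lf.1 hv with h | ⟨h1, h2, h3⟩
  · exact absurd h hvz
  obtain ⟨h4, h5, h6, h7⟩ := F.off h2
  have h8 := F.pe F.thruA h1 h4.symm
  have h9 := F.pf F.thruA h1 h5.symm
  have e1 : e ≠ pj B e A v := fun h => F.ne (h ▸ h8.1)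
  have e2 : f ≠ pj B f A v := fun h => F.nf (h ▸ h9.1)
  refine ⟨h1, h2, h4, h5, h8.1, h8.2, h9.1, h9.2, h3, fun h => h2 ?_, fun h => h2 ?_⟩
  · have h10 := F.flip h4 e1 h8.2
    rw [bl_of H F.hef (H.b1 F.hef) h e1] at h10
    exact h10
  · have h10 := F.flip h5 e2 h9.2
    rw [bl_of H F.hef (H.b2 F.hef) h e2] at h10
    exact h10

theorem Fr.notE {t : V} (ht : t ∈ A) (htz : t ≠ z) : t ∉ bl B e f := fun h =>
  htz (F.only F.thruA ht h)

theorem Fr.inC {φ : V → V} {k C : Finset V} (hC : Thru B q S e f z C)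
    (hk : ∀ t ∈ k, φ t = pj B f A (pj B e C t)) {y : V} (hy : y ∈ lf B A S e f z φ)
    (hyz : y ≠ z) (hyk : pj B e A y ∈ k) : y ∈ C := by
  have H := F.H
  obtain ⟨h1, h2, h3, h4, h5, h6, h7, h8, h9, h10, h11⟩ := F.memL hy hyz
  obtain ⟨g1, g2, g3, g4⟩ := F.off h10
  have h12 := hk _ hyk
  rw [h9] at h12
  have g := F.pe hC (F.AS h5) g1.symm
  have e1 : e ≠ pj B e C (pj B e A y) := fun h => hC.ne (h ▸ g.1)
  have e2 : f ≠ pj B e C (pj B e A y) := fun h => hC.nf (h ▸ g.1)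
  have g' := F.pf F.thruA (hC.sub g.1) e2.symm
  rw [← h12] at g'
  have e3 : f ≠ pj B f A y := fun h => F.nf (h ▸ h7)
  have := F.uniq2 h10 h11 (F.flip h3 g1 h6) (F.flip h4 e3 h8) g.2 (F.flip e2 e3 g'.2)
  rw [this]
  exact g.1

theorem Fr.fromC {φ : V → V} {k C Ω : Finset V} (hC : Thru B q S e f z C)
    (hk : ∀ t ∈ k, φ t = pj B f A (pj B e C t)) (Q : Pla B q Ω) (he : e ∈ Ω)
    (hΩ : ∀ t ∈ A, t ∈ Ω → t ∈ k) {y : V} (hy : y ∈ C) (hyz : y ≠ z) (hyΩ : y ∈ Ω) :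
    y ∈ lf B A S e f z φ := by
  have hyE : y ∉ bl B e f := fun h => hyz (F.only hC hy h)
  obtain ⟨h1, h2, h3, h4⟩ := F.off hyE
  have h5 := F.pe F.thruA (hC.sub hy) h1.symm
  have e1 : e ≠ pj B e A y := fun h => F.ne (h ▸ h5.1)
  have h6 : pj B e A y ∈ k := hΩ _ h5.1 (Q.cl e he y hyΩ h1 h5.2)
  refine mem_lf.2 (Or.inr ⟨hC.sub hy, hyE, ?_⟩)
  rw [hk _ h6]
  congr 1
  exact F.pe_uniq hC (F.AS h5.1) e1.symm hy (F.flip h1 e1 h5.2)

theorem Fr.lift {φ : Equiv.Perm V} (hφ : IsK B A z φ) (hL : Lam B q A S e f z φ) :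
    Pla B q (lf B A S e f z φ) := by
  have H := F.H
  have hz0 : z ∈ lf B A S e f z φ := mem_lf.2 (Or.inl rfl)
  -- blocks through `z`
  have hZ : ∀ v ∈ lf B A S e f z φ, v ≠ z → bl B z v ⊆ lf B A S e f z φ ∧
      ∀ y ∈ lf B A S e f z φ, y ≠ z → pj B e A y ∈ bl B z (pj B e A v) → y ∈ bl B z v := by
    intro v hv hvz
    obtain ⟨h1, h2, h3, h4, h5, h6, h7, h8, h9, h10, h11⟩ := F.memL hv hvz
    have zw : z ≠ pj B e A v := fun h => h10 (h ▸ F.hz)
    have ew : e ≠ pj B e A v := fun h => F.ne (h ▸ h5)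
    have kB := H.bB zw
    have kA := F.PA.cl z F.zA _ h5 zw
    have zk := H.b1 zw
    have wk := H.b2 zw
    obtain ⟨C, hC, hk⟩ := hL _ kB kA zk
    obtain ⟨Ω, Q, oe, of, ok, oA⟩ := F.omega kB kA zk
    have inΩ : ∀ y ∈ lf B A S e f z φ, y ≠ z → pj B e A y ∈ bl B z (pj B e A v) → y ∈ Ω := by
      intro y hy hyz hyk
      obtain ⟨g1, g2, g3, g4, g5, g6, g7, g8, g9, g10, g11⟩ := F.memL hy hyz
      have ey : e ≠ pj B e A y := fun h => F.ne (h ▸ g5)
      exact Q.cl e oe _ (ok hyk) ey (F.flip g3 ey g6)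
    have vC := F.inC hC hk hv hvz wk
    have vΩ := inΩ v hv hvz wk
    refine ⟨?_, ?_⟩
    · intro y hy
      by_cases hyz : y = z
      · rw [hyz]; exact hz0
      · exact F.fromC hC hk Q oe oA (hC.P.cl z hC.z v vC hvz.symm hy) hyz
          (Q.cl z (ok zk) v vΩ hvz.symm hy)
    · intro y hy hyz hyk
      by_contra hcon
      apply hC.ne
      rw [hC.P.uniq H Q (F.inC hC hk hy hyz hyk) (inΩ y hy hyz hyk) (H.bB hvz.symm)
        (hC.P.cl z hC.z v vC hvz.symm) (Q.cl z (ok zk) v vΩ hvz.symm) hcon]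
      exact oe
  refine ⟨?_, ?_⟩
  · -- the number of points
    rw [← F.PA.card]
    refine card_bij (fun v _ => pj B e A v) ?_ ?_ ?_
    · intro v hv
      by_cases hvz : v = z
      · rw [hvz]; exact (F.pe F.thruA F.zS F.ze.symm).1
      · exact (F.memL hv hvz).2.2.2.2.1
    · have pz : pj B e A z = z := F.pe_uniq F.thruA F.zS F.ze.symm F.zA (H.b2 F.ze)
      have hne : ∀ v ∈ lf B A S e f z φ, v ≠ z → pj B e A v ≠ z := by
        intro v hv hvz h
        exact (F.memL hv hvz).2.2.2.2.2.2.2.2.2.1 (by rw [h]; exact F.hz)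
      intro v hv y hy h
      by_cases hvz : v = z
      · by_cases hyz : y = z
        · rw [hvz, hyz]
        · rw [hvz, pz] at h
          exact absurd h.symm (hne y hy hyz)
      · by_cases hyz : y = z
        · rw [hyz, pz] at h
          exact absurd h (hne v hv hvz)
        · obtain ⟨h1, h2, h3, h4, h5, h6, h7, h8, h9, h10, h11⟩ := F.memL hv hvz
          obtain ⟨g1, g2, g3, g4, g5, g6, g7, g8, g9, g10, g11⟩ := F.memL hy hyz
          rw [← h] at g5 g6 g9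
          have e4 : pj B f A y = pj B f A v := g9.symm.trans h9
          rw [e4] at g7 g8
          have ew : e ≠ pj B e A v := fun h => F.ne (h ▸ h5)
          have fw : f ≠ pj B f A v := fun h => F.nf (h ▸ h7)
          exact F.uniq2 h10 h11 (F.flip h3 ew h6) (F.flip h4 fw h8) (F.flip g3 ew g6)
            (F.flip g4 fw g8)
    · intro t ht
      by_cases htz : t = z
      · refine ⟨z, hz0, ?_⟩
        rw [htz]
        exact F.pe_uniq F.thruA F.zS F.ze.symm F.zA (H.b2 F.ze)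
      · have tE := F.notE ht htz
        obtain ⟨h1, h2, h3, h4⟩ := F.off tE
        have kB := H.bB (Ne.symm htz)
        have kA := F.PA.cl z F.zA t ht (Ne.symm htz)
        have zk := H.b1 (Ne.symm htz)
        have tk := H.b2 (Ne.symm htz)
        obtain ⟨C, hC, hk⟩ := hL _ kB kA zk
        obtain ⟨Ω, Q, oe, of, ok, oA⟩ := F.omega kB kA zk
        have g := F.pe hC (F.AS ht) h1.symm
        have ev : e ≠ pj B e C t := fun h => hC.ne (h ▸ g.1)
        have vz : pj B e C t ≠ z := by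
          intro h
          have h5 : z ∈ bl B e t := h ▸ g.2
          have h6 := F.flip h1 F.ze h5
          rw [bl_of H F.hef (H.b1 F.hef) F.hz F.ze] at h6
          exact tE h6
        refine ⟨pj B e C t, F.fromC hC hk Q oe oA g.1 vz (Q.cl e oe t (ok tk) h1 g.2), ?_⟩
        exact F.pe_uniq F.thruA (hC.sub g.1) ev.symm ht (F.flip h1 ev g.2)
  · -- closure
    intro x hx y hy hxy
    by_cases hxz : x = z
    · subst hxz
      exact (hZ y hy hxy.symm).1
    by_cases hyz : y = z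
    · subst hyz
      rw [bl_comm H hxy]
      exact (hZ x hx hxy).1
    obtain ⟨h1, h2, h3, h4, h5, h6, h7, h8, h9, h10, h11⟩ := F.memL hx hxz
    obtain ⟨g1, g2, g3, g4, g5, g6, g7, g8, g9, g10, g11⟩ := F.memL hy hyz
    by_cases hw : pj B e A y ∈ bl B z (pj B e A x)
    · have hyx := (hZ x hx hxz).2 y hy hyz hw
      rw [bl_of H (Ne.symm hxz) (H.b2 (Ne.symm hxz)) hyx hxy]
      exact (hZ x hx hxz).1
    have zwx : z ≠ pj B e A x := fun h => h10 (h ▸ F.hz)
    have zwy : z ≠ pj B e A y := fun h => g10 (h ▸ F.hz)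
    have hww : pj B e A x ≠ pj B e A y := fun h => hw (h ▸ H.b2 zwx)
    have zg : z ∉ bl B (pj B e A x) (pj B e A y) := by
      intro h
      apply hw
      rw [bl_of H hww h (H.b1 hww) zwx]
      exact H.b2 hww
    have gA := F.PA.cl _ h5 _ g5 hww
    have hfw : pj B f A x ≠ pj B f A y := by
      intro h
      apply hww
      apply φ.injective
      rw [h9, g9, h]
    have rx := hφ.ray _ h5 (Ne.symm zwx)
    have ry := hφ.ray _ g5 (Ne.symm zwy)
    rw [h9] at rx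
    rw [g9] at ry
    have zfx : z ≠ pj B f A x := fun h => h11 (h ▸ F.hz)
    have zfy : z ≠ pj B f A y := fun h => g11 (h ▸ F.hz)
    have zg' : z ∉ bl B (pj B f A x) (pj B f A y) := by
      intro h
      apply hw
      have e1 : bl B z (pj B f A x) = bl B z (pj B f A y) := by
        rw [bl_of H hfw h (H.b1 hfw) zfx, bl_of H hfw h (H.b2 hfw) zfy]
      have e2 : bl B z (pj B f A x) = bl B z (pj B e A x) :=
        bl_of H zwx (H.b1 zwx) rx zfx
      have e3 : bl B z (pj B f A y) = bl B z (pj B e A y) :=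
        bl_of H zwy (H.b1 zwy) ry zfy
      rw [← e2, e1, e3]
      exact H.b2 zwy
    have gA' := F.PA.cl _ h7 _ g7 hfw
    have eg : e ∉ bl B (pj B e A x) (pj B e A y) := fun h => F.ne (gA h)
    have fg : f ∉ bl B (pj B f A x) (pj B f A y) := fun h => F.nf (gA' h)
    have Q := pla_pl H F.ve (H.bB hww) eg
    have Q' := pla_pl H F.vf (H.bB hfw) fg
    set Θ := pl B e (bl B (pj B e A x) (pj B e A y)) with hΘ
    set Θ' := pl B f (bl B (pj B f A x) (pj B f A y)) with hΘ'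
    have eΘ : e ∈ Θ := H.p_mem (H.bB hww) eg
    have fΘ : f ∈ Θ' := H.p_mem (H.bB hfw) fg
    have gΘ : bl B (pj B e A x) (pj B e A y) ⊆ Θ := H.L_sub eg
    have gΘ' : bl B (pj B f A x) (pj B f A y) ⊆ Θ' := H.L_sub fg
    have ewx : e ≠ pj B e A x := fun h => F.ne (h ▸ h5)
    have ewy : e ≠ pj B e A y := fun h => F.ne (h ▸ g5)
    have fwx : f ≠ pj B f A x := fun h => F.nf (h ▸ h7)
    have fwy : f ≠ pj B f A y := fun h => F.nf (h ▸ g7)
    have xΘ : x ∈ Θ := Q.cl e eΘ _ (gΘ (H.b1 hww)) ewx (F.flip h3 ewx h6)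
    have yΘ : y ∈ Θ := Q.cl e eΘ _ (gΘ (H.b2 hww)) ewy (F.flip g3 ewy g6)
    have xΘ' : x ∈ Θ' := Q'.cl f fΘ _ (gΘ' (H.b1 hfw)) fwx (F.flip h4 fwx h8)
    have yΘ' : y ∈ Θ' := Q'.cl f fΘ _ (gΘ' (H.b2 hfw)) fwy (F.flip g4 fwy g8)
    have cut : ∀ t ∈ A, t ∈ Θ → t ∈ bl B (pj B e A x) (pj B e A y) := by
      intro t ht htΘ
      by_contra hcon
      apply F.ne
      rw [F.PA.uniq H Q ht htΘ (H.bB hww) gA gΘ hcon]
      exact eΘ
    have cut' : ∀ t ∈ A, t ∈ Θ' → t ∈ bl B (pj B f A x) (pj B f A y) := by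
      intro t ht htΘ
      by_contra hcon
      apply F.nf
      rw [F.PA.uniq H Q' ht htΘ (H.bB hfw) gA' gΘ' hcon]
      exact fΘ
    have zΘ : z ∉ Θ := fun h => zg (cut z F.zA h)
    have zΘ' : z ∉ Θ' := fun h => zg' (cut' z F.zA h)
    intro v hv
    have vΘ := Q.cl x xΘ y yΘ hxy hv
    have vΘ' := Q'.cl x xΘ' y yΘ' hxy hv
    have vS := F.T.cl x h1 y g1 hxy hv
    have vE : v ∉ bl B e f := by
      intro h
      have a1 : v = e := by
        by_contra hne
        apply zΘ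
        have := Q.cl e eΘ v vΘ (Ne.symm hne)
        rw [bl_of H F.hef (H.b1 F.hef) h (Ne.symm hne)] at this
        exact this F.hz
      have a2 : v = f := by
        by_contra hne
        apply zΘ'
        have := Q'.cl f fΘ v vΘ' (Ne.symm hne)
        rw [bl_of H F.hef (H.b2 F.hef) h (Ne.symm hne)] at this
        exact this F.hz
      exact F.hef (a1.symm.trans a2)
    obtain ⟨i1, i2, i3, i4⟩ := F.off vE
    have j1 := F.pe F.thruA vS i1.symm
    have j2 := F.pf F.thruA vS i2.symm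
    refine mem_lf.2 (Or.inr ⟨vS, vE, ?_⟩)
    have t1 : pj B e A v ∈ bl B (pj B e A x) (pj B e A y) :=
      cut _ j1.1 (Q.cl e eΘ v vΘ i1 j1.2)
    have t2 : pj B f A v ∈ bl B (pj B f A x) (pj B f A y) :=
      cut' _ j2.1 (Q'.cl f fΘ v vΘ' i2 j2.2)
    have tz : z ≠ pj B e A v := fun h => zg (h ▸ t1)
    have t3 := hφ.col _ h5 _ g5 hww _ t1
    rw [h9, g9] at t3
    have t4 := hφ.ray _ j1.1 (Ne.symm tz)
    have kB := H.bB tz
    have kA := F.PA.cl z F.zA _ j1.1 tz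
    obtain ⟨Ω, R, oe, of, ok, oA⟩ := F.omega kB kA (H.b1 tz)
    have et : e ≠ pj B e A v := fun h => F.ne (h ▸ j1.1)
    have vΩ : v ∈ Ω := R.cl e oe _ (ok (H.b2 tz)) et (F.flip i1 et j1.2)
    have t5 : pj B f A v ∈ bl B z (pj B e A v) := oA _ j2.1 (R.cl f of v vΩ i2 j2.2)
    refine H.pt (H.bB tz) (H.bB hfw) ?_ t4 t3 t5 t2
    intro h
    exact zg' (h ▸ H.b1 tz)

end

end Pool.Agent.Helper19.G4
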