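import Mathlib
import Pool.Agent.Helper19.G4.Lift

set_option autoImplicit false
set_option linter.unusedSectionVars false

/-!
# Planes through a block of the plane of three Veblen points
-/

namespace Pool.Agent.Helper19.G4

open Finset Pool.Agent.V11100.VB Pool.Agent.Helper19.VS Pool.Agent.Helper19.V3

variable {V : Type} [DecidableEq V] [Fintype V] {B : Finset (Finset V)} {q : ℕ}

theorem pl_sub {A L : Finset V} {p : V}
    (hA : ∀ x ∈ A, ∀ y ∈ A, x ≠ y → bl B x y ⊆ A) (hp : p ∈ A) (hL : L ⊆ A) (hpL : p ∉ L) :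
    pl B p L ⊆ A := by
  intro t ht
  unfold pl at ht
  rw [mem_biUnion] at ht
  obtain ⟨w, hw, htw⟩ := ht
  exact hA p hp w (hL hw) (fun e => hpL (e ▸ hw)) htw

theorem thru_of (H : LS B q) {S : Finset V} (T : Spc B q S) {e f z p u : V} (hef : e ≠ f)
    (hz : z ∈ bl B e f) (ze : z ≠ e) (zf : z ≠ f) (vp : Veblen B p) (pS : p ∈ S)
    (pE : p ∉ bl B e f) (eS : e ∈ S) (fS : f ∈ S) (uS : u ∈ S)
    (hu : u ∉ pl B p (bl B e f)) :
    p ∉ bl B z u ∧ Thru B q S e f z (pl B p (bl B z u)) ∧ p ∈ pl B p (bl B z u) ∧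
      u ∈ pl B p (bl B z u) := by
  have Q0 := pla_pl H vp (H.bB hef) pE
  have E0 : bl B e f ⊆ pl B p (bl B e f) := H.L_sub pE
  have p0 : p ∈ pl B p (bl B e f) := H.p_mem (H.bB hef) pE
  have zu : z ≠ u := fun h => hu (h ▸ E0 hz)
  have zp : z ≠ p := fun h => pE (h ▸ hz)
  have pn : p ∉ bl B z u := by
    intro h
    apply hu
    have := Q0.cl z (E0 hz) p p0 zp
    rw [bl_of H zu (H.b1 zu) h zp] at this
    exact this (H.b2 zu)
  have PC := pla_pl H vp (H.bB zu) pn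
  have mC : bl B z u ⊆ pl B p (bl B z u) := H.L_sub pn
  have pC : p ∈ pl B p (bl B z u) := H.p_mem (H.bB zu) pn
  have zS : z ∈ S := T.cl e eS f fS hef hz
  have key : ¬ bl B e f ⊆ pl B p (bl B z u) := by
    intro h
    apply hu
    rw [← PC.uniq H Q0 pC p0 (H.bB hef) h E0 pE]
    exact mC (H.b2 zu)
  refine ⟨pn, ⟨PC, pl_sub T.cl pS (T.cl z zS u uS zu) pn, mC (H.b1 zu), ?_, ?_⟩, pC,
    mC (H.b2 zu)⟩
  · intro h
    apply key
    rw [← bl_of H hef (H.b1 hef) hz ze.symm]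
    exact PC.cl e h z (mC (H.b1 zu)) ze.symm
  · intro h
    apply key
    rw [← bl_of H hef (H.b2 hef) hz zf.symm]
    exact PC.cl f h z (mC (H.b1 zu)) zf.symm

section

variable {A S : Finset V} {e f z : V} (F : Fr B q A S e f z)
include F

theorem Fr.mkT {C : Finset V} (hC : Thru B q S e f z C) :
    ∃ k, IsK B A z k ∧ ∀ x ∈ A, k x = pj B f A (pj B e C x) :=
  mkK F.H F.T F.ve F.vf F.se F.sf F.hef F.PA F.AS F.ne F.nf hC.P hC.sub hC.ne hC.nf F.zA F.hz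

/-- the collineations that come from planes through `z` and `p` -/
theorem Fr.tr {p : V} (vp : Veblen B p) (pA : p ∈ A) (pE : p ∉ bl B e f) {w w' : V}
    (hw : w ∈ A) (hwp : w ∉ bl B z p) (hw' : w' ∈ bl B z w) (w'z : w' ≠ z) :
    ∃ k C, IsK B A z k ∧ (∀ t ∈ bl B z p, k t = t) ∧ k w = w' ∧ Thru B q S e f z C ∧
      ∀ t ∈ A, k t = pj B f A (pj B e C t) := by
  have H := F.H
  have zp : z ≠ p := fun h => pE (h ▸ F.hz)
  have wz : w ≠ z := fun h => hwp (by rw [h]; exact H.b1 zp)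
  have wE := F.notE hw wz
  have kA := F.PA.cl z F.zA w hw wz.symm
  have w'A : w' ∈ A := kA hw'
  have w'E := F.notE w'A w'z
  obtain ⟨Ω, Q, oe, of, ok, oA⟩ := F.omega (H.bB wz.symm) kA (H.b1 wz.symm)
  obtain ⟨i1, i2, i3, i4⟩ := F.off wE
  obtain ⟨j1, j2, j3, j4⟩ := F.off w'E
  obtain ⟨u, hu, hu'⟩ := Q.meet H (H.bB i1) (H.bB j2) (Q.cl e oe w (ok (H.b2 wz.symm)) i1)
    (Q.cl f of w' (ok hw') j2)
  have eu : e ≠ u := fun h => j4 (h ▸ hu')
  have fu : f ≠ u := fun h => i3 (h ▸ hu)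
  have uS : u ∈ S := F.T.cl e F.se w (F.AS hw) i1 hu
  have Q0 := pla_pl H vp (H.bB F.hef) pE
  have E0 : bl B e f ⊆ pl B p (bl B e f) := H.L_sub pE
  have p0 : p ∈ pl B p (bl B e f) := H.p_mem (H.bB F.hef) pE
  have hu0 : u ∉ pl B p (bl B e f) := by
    intro h
    apply F.ne
    have h1 := Q0.cl e (E0 (H.b1 F.hef)) u h eu
    have h2 : w ∈ pl B p (bl B e f) := h1 (F.flip i1 eu hu)
    rw [F.PA.uniq H Q0 hw h2 (H.bB zp) (F.PA.cl z F.zA p pA zp) (Q0.cl z (E0 F.hz) p p0 zp) hwp]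
    exact E0 (H.b1 F.hef)
  obtain ⟨pn, hC, pC, uC⟩ := thru_of H F.T F.hef F.hz F.ze.symm F.zf.symm vp (F.AS pA) pE F.se
    F.sf uS hu0
  obtain ⟨k, hk, hkf⟩ := F.mkT hC
  refine ⟨k, _, hk, ?_, ?_, hC, hkf⟩
  · intro t ht
    have tA : t ∈ A := F.PA.cl z F.zA p pA zp ht
    have tC := hC.P.cl z hC.z p pC zp ht
    have et : e ≠ t := fun h => F.ne (h ▸ tA)
    have ft : f ≠ t := fun h => F.nf (h ▸ tA)
    rw [hkf t tA, F.pe_uniq hC (F.AS tA) et.symm tC (H.b2 et)]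
    exact F.pf_uniq F.thruA (F.AS tA) ft.symm tA (H.b2 ft)
  · rw [hkf w hw, F.pe_uniq hC (F.AS hw) i1.symm uC hu]
    exact F.pf_uniq F.thruA uS fu.symm w'A (F.flip j2 fu hu')

/-- two such planes giving the same image of one point give the same images on the whole block -/
theorem Fr.agree {C D : Finset V} (hC : Thru B q S e f z C) (hD : Thru B q S e f z D)
    {k : Finset V} (kB : k ∈ B) (kA : k ⊆ A) (zk : z ∈ k) {w : V} (hw : w ∈ k) (wz : w ≠ z)
    (h : pj B f A (pj B e C w) = pj B f A (pj B e D w)) : ∀ t ∈ k, pj B e C t = pj B e D t := by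
  have H := F.H
  have wE := F.notE (kA hw) wz
  obtain ⟨i1, i2, i3, i4⟩ := F.off wE
  have g1 := F.pe hC (F.AS (kA hw)) i1.symm
  have g2 := F.pe hD (F.AS (kA hw)) i1.symm
  have fu : f ≠ pj B e C w := fun h => hC.nf (h ▸ g1.1)
  have fu' : f ≠ pj B e D w := fun h => hD.nf (h ▸ g2.1)
  have j1 := F.pf F.thruA (hC.sub g1.1) fu.symm
  have j2 := F.pf F.thruA (hD.sub g2.1) fu'.symm
  rw [← h] at j2
  have fw : f ≠ pj B f A (pj B e C w) := fun h => F.nf (h ▸ j1.1)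
  have ew : e ≠ pj B e C w := fun h => hC.ne (h ▸ g1.1)
  have zu : z ≠ pj B e C w := by
    intro h
    have h5 := F.flip i1 ew g1.2
    rw [← h, bl_of H F.hef (H.b1 F.hef) F.hz F.ze] at h5
    exact wE h5
  have w'E : pj B f A (pj B e C w) ∉ bl B e f := by
    intro h
    have h5 := F.flip fu fw j1.2
    rw [bl_of H F.hef (H.b2 F.hef) h fw] at h5
    exact zu (F.only hC g1.1 h5).symm
  have huu : pj B e C w = pj B e D w :=
    F.uniq2 wE w'E g1.2 (F.flip fu fw j1.2) g2.2 (F.flip fu' fw j2.2)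
  obtain ⟨Ω, Q, oe, of, ok, oA⟩ := F.omega kB kA zk
  have uΩ : pj B e C w ∈ Ω := Q.cl e oe w (ok hw) i1 g1.2
  intro t ht
  have et : e ≠ t := fun h => F.ne (h ▸ kA ht)
  obtain ⟨v, hv, hv'⟩ := Q.meet H (H.bB zu) (H.bB et) (Q.cl z (ok zk) _ uΩ zu)
    (Q.cl e oe t (ok ht) et)
  have vC := hC.P.cl z hC.z _ g1.1 zu hv
  have vD := hD.P.cl z hD.z _ (huu ▸ g2.1) zu hv
  rw [F.pe_uniq hC (F.AS (kA ht)) et.symm vC hv', F.pe_uniq hD (F.AS (kA ht)) et.symm vD hv']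

/-- uniqueness of elations with a given axis -/
theorem Fr.uniqK {k l : Equiv.Perm V} (hk : IsK B A z k) (hl : IsK B A z l) {g : Finset V}
    (gB : g ∈ B) (gA : g ⊆ A) (fk : ∀ t ∈ g, k t = t) (fl : ∀ t ∈ g, l t = t) {w : V}
    (hw : w ∈ A) (wg : w ∉ g) (wz : w ≠ z) (h : k w = l w) : k = l := by
  have H := F.H
  have h1 := (hk.inv H F.PA F.zA).mul H F.PA F.zA hl
  have h2 := h1.eq_one H F.PA F.zA gB gA (fun t ht => by
    rw [Equiv.Perm.mul_apply, fl t ht, Equiv.Perm.inv_eq_iff_eq, fk t ht]) hw wg wz (by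
    rw [Equiv.Perm.mul_apply, ← h]
    exact k.symm_apply_apply w)
  exact inv_mul_eq_one.1 h2

end

/-- Let `e`, `f`, `p` be Veblen points not on a block, `z` a third point of the block `ef` and
`C0` a plane through `z`, not through `e` or `f`.  Every point `x` outside the plane `efp` is in a
plane that contains the points of `C0` in the plane `efp`. -/
theorem star (H : LS B q) {S : Finset V} (T : Spc B q S) {e f z p : V} (ve : Veblen B e)
    (vf : Veblen B f) (vp : Veblen B p) (hef : e ≠ f)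
    (hz : z ∈ bl B e f) (ze : z ≠ e) (zf : z ≠ f) (pE : p ∉ bl B e f) (eS : e ∈ S) (fS : f ∈ S)
    (pS : p ∈ S) {C0 : Finset V} (h0 : Thru B q S e f z C0) {x : V} (xS : x ∈ S)
    (hx : x ∉ pl B p (bl B e f)) :
    ∃ P, Pla B q P ∧ x ∈ P ∧ ∀ v ∈ C0, v ∈ pl B p (bl B e f) → v ∈ P := by
  obtain ⟨pn, hA, pA, xA⟩ := thru_of H T hef hz ze zf vp pS pE eS fS xS hx
  set A := pl B p (bl B z x) with hAdef
  have F : Fr B q A S e f z := ⟨H, ve, vf, hef, hz, hA.P, T, hA.z, hA.sub, hA.ne, hA.nf, eS, fS⟩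
  have Q0 := pla_pl H vp (H.bB hef) pE
  have E0 : bl B e f ⊆ pl B p (bl B e f) := H.L_sub pE
  have p0 : p ∈ pl B p (bl B e f) := H.p_mem (H.bB hef) pE
  have zp : z ≠ p := fun h => pE (h ▸ hz)
  have zx : z ≠ x := fun h => hx (h ▸ E0 hz)
  have gA : bl B z p ⊆ A := hA.P.cl z hA.z p pA zp
  have g0 : bl B z p ⊆ pl B p (bl B e f) := Q0.cl z (E0 hz) p p0 zp
  have xg : x ∉ bl B z p := fun h => hx (g0 h)
  have cut : ∀ t ∈ A, t ∈ pl B p (bl B e f) → t ∈ bl B z p := by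
    intro t ht ht0
    by_contra hcon
    apply hA.ne
    rw [hA.P.uniq H Q0 ht ht0 (H.bB zp) gA g0 hcon]
    exact E0 (H.b1 hef)
  obtain ⟨ψ, hψ, hψf⟩ := F.mkT h0
  have hψi := hψ.inv H F.PA F.zA
  have x1 : ψ⁻¹ x ∈ bl B z x := hψi.ray x xA zx.symm
  have x1z : ψ⁻¹ x ≠ z := fun h => zx (ψ⁻¹.injective (by rw [h, hψi.ctr]))
  obtain ⟨ε, C1, hε, fε, εx, hC1, hεf⟩ := F.tr vp pA pE xA xg x1 x1z
  have hφ := hψ.mul H F.PA F.zA hε
  have φx : (ψ * ε) x = x := by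
    rw [Equiv.Perm.mul_apply, εx]
    exact ψ.apply_symm_apply x
  have hL : Lam B q A S e f z (ψ * ε) := by
    intro k kB kA zk
    by_cases hkg : k = bl B z p
    · refine ⟨C0, h0, fun t ht => ?_⟩
      rw [Equiv.Perm.mul_apply, fε t (hkg ▸ ht), hψf t (kA ht)]
    · obtain ⟨w, wk, wz⟩ := H.two_pts kB z
      have wA := kA wk
      have wg : w ∉ bl B z p := by
        intro h
        exact hkg (H.un wz.symm kB (H.bB zp) zk wk (H.b1 zp) h)
      have ek : bl B z w = k := H.bl_eq wz.symm kB zk wk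
      have inv : ∀ {l : Equiv.Perm V}, IsK B A z l → ∀ t ∈ k, l t ∈ k := by
        intro l hl t ht
        by_cases htz : t = z
        · rw [htz, hl.ctr]; exact zk
        · have := hl.ray t (kA ht) htz
          rwa [H.bl_eq (Ne.symm htz) kB zk ht] at this
      have nz : ∀ {l : Equiv.Perm V}, IsK B A z l → l w ≠ z := fun hl h =>
        wz (Equiv.injective _ (h.trans hl.ctr.symm))
      obtain ⟨ε2, C2, hε2, fε2, ε2w, hC2, hε2f⟩ := F.tr vp pA pE wA wg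
        (by rw [ek]; exact inv hψ w wk) (nz hψ)
      have agr := F.agree hC2 h0 kB kA zk wk wz (by
        rw [← hε2f w wA, ← hψf w wA, ε2w])
      have agr' : ∀ t ∈ k, ε2 t = ψ t := fun t ht => by
        rw [hε2f t (kA ht), hψf t (kA ht), agr t ht]
      have hχ := hε2.mul H F.PA F.zA hε
      obtain ⟨ε3, C3, hε3, fε3, ε3w, hC3, hε3f⟩ := F.tr vp pA pE wA wg
        (by rw [ek]; exact inv hχ w wk) (nz hχ)
      have e3 : ε3 = ε2 * ε := F.uniqK hε3 hχ (H.bB zp) gA fε3 (fun t ht => by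
        rw [Equiv.Perm.mul_apply, fε t ht, fε2 t ht]) wA wg wz ε3w
      refine ⟨C3, hC3, fun t ht => ?_⟩
      rw [← hε3f t (kA ht), e3, Equiv.Perm.mul_apply, Equiv.Perm.mul_apply,
        agr' _ (inv hε t ht)]
  refine ⟨_, F.lift hφ hL, ?_, ?_⟩
  · have ex : e ≠ x := fun h => hA.ne (h ▸ xA)
    have fx : f ≠ x := fun h => hA.nf (h ▸ xA)
    refine mem_lf.2 (Or.inr ⟨xS, fun h => hx (E0 h), ?_⟩)
    rw [F.pe_uniq F.thruA xS ex.symm xA (H.b2 ex), F.pf_uniq F.thruA xS fx.symm xA (H.b2 fx)]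
    exact φx
  · intro v hv hv0
    by_cases hvz : v = z
    · exact mem_lf.2 (Or.inl hvz)
    have vS := h0.sub hv
    have vE : v ∉ bl B e f := fun h => hvz (F.only h0 hv h)
    obtain ⟨i1, i2, i3, i4⟩ := F.off vE
    refine mem_lf.2 (Or.inr ⟨vS, vE, ?_⟩)
    have g := F.pe F.thruA vS i1.symm
    have ew : e ≠ pj B e A v := fun h => F.ne (h ▸ g.1)
    have w0 : pj B e A v ∈ bl B z p :=
      cut _ g.1 (Q0.cl e (E0 (H.b1 hef)) v hv0 i1 g.2)
    rw [Equiv.Perm.mul_apply, fε _ w0, hψf _ g.1]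
    congr 1
    exact F.pe_uniq h0 (F.AS g.1) ew.symm hv (F.flip i1 ew g.2)

end Pool.Agent.Helper19.G4
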