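import Mathlib
import Pool.Agent.Helper19.G4.Star

set_option autoImplicit false
set_option linter.unusedSectionVars false

/-!
# Four Veblen points that generate a three-dimensional subsystem
-/

namespace Pool.Agent.Helper19.G4

open Finset Pool.Agent.V11100.VB Pool.Agent.Helper19.VS Pool.Agent.Helper19.V3

variable {V : Type} [DecidableEq V] [Fintype V] {B : Finset (Finset V)} {q : ℕ}

/-- four Veblen points that generate `S` -/
structure Tet (B : Finset (Finset V)) (q : ℕ) (S : Finset V) (a b c d : V) : Prop where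
  H : LS B q
  T : Spc B q S
  va : Veblen B a
  vb : Veblen B b
  vc : Veblen B c
  vd : Veblen B d
  sa : a ∈ S
  sb : b ∈ S
  sc : c ∈ S
  sd : d ∈ S
  hab : a ≠ b
  nc : c ∉ bl B a b
  nd : d ∉ pl B c (bl B a b)

section

variable {S : Finset V} {a b c d : V}

theorem Tet.Q (F : Tet B q S a b c d) : Pla B q (pl B c (bl B a b)) :=
  pla_pl F.H F.vc (F.H.bB F.hab) F.nc

theorem Tet.E0 (F : Tet B q S a b c d) : bl B a b ⊆ pl B c (bl B a b) := F.H.L_sub F.nc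

theorem Tet.c0 (F : Tet B q S a b c d) : c ∈ pl B c (bl B a b) := F.H.p_mem (F.H.bB F.hab) F.nc

theorem Tet.sub (F : Tet B q S a b c d) : pl B c (bl B a b) ⊆ S :=
  pl_sub F.T.cl F.sc (F.T.cl a F.sa b F.sb F.hab) F.nc

theorem Tet.swap (F : Tet B q S a b c d) : Tet B q S b a c d := by
  have e := bl_comm F.H F.hab
  refine ⟨F.H, F.T, F.vb, F.va, F.vc, F.vd, F.sb, F.sa, F.sc, F.sd, F.hab.symm, ?_, ?_⟩
  · rw [← e]; exact F.nc
  · rw [← e]; exact F.nd

theorem Tet.swap' (F : Tet B q S a b c d) : Tet B q S a b d c := by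
  have H := F.H
  have n1 : d ∉ bl B a b := fun h => F.nd (F.E0 h)
  have Q1 := pla_pl H F.vd (H.bB F.hab) n1
  refine ⟨H, F.T, F.va, F.vb, F.vd, F.vc, F.sa, F.sb, F.sd, F.sc, F.hab, n1, ?_⟩
  intro h
  apply F.nd
  rw [F.Q.uniq H Q1 F.c0 h (H.bB F.hab) F.E0 (H.L_sub n1) F.nc]
  exact H.p_mem (H.bB F.hab) n1

/-- exchange the second and the third point -/
theorem Tet.turn (F : Tet B q S a b c d) : Tet B q S a c b d ∧
    pl B b (bl B a c) = pl B c (bl B a b) := by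
  have H := F.H
  have hac : a ≠ c := fun h => F.nc (h ▸ H.b1 F.hab)
  have hbc : b ≠ c := fun h => F.nc (h ▸ H.b2 F.hab)
  have n1 : b ∉ bl B a c := by
    intro h
    apply F.nc
    rw [bl_of H hac (H.b1 hac) h F.hab]
    exact H.b2 hac
  have Q1 := pla_pl H F.vb (H.bB hac) n1
  have h1 : bl B a c ⊆ pl B b (bl B a c) := H.L_sub n1
  have b1 : b ∈ pl B b (bl B a c) := H.p_mem (H.bB hac) n1
  have e : pl B b (bl B a c) = pl B c (bl B a b) :=
    Q1.uniq H F.Q (h1 (H.b2 hac)) F.c0 (H.bB F.hab)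
      (Q1.cl a (h1 (H.b1 hac)) b b1 F.hab) F.E0 F.nc
  refine ⟨⟨H, F.T, F.va, F.vc, F.vb, F.vd, F.sa, F.sc, F.sb, F.sd, hac, n1, ?_⟩, e⟩
  rw [e]
  exact F.nd

/-- a block of the plane `abc` and a point outside are in a plane -/
theorem Tet.blk (F : Tet B q S a b c d) {x : V} (xS : x ∈ S) (hx : x ∉ pl B c (bl B a b))
    {n : Finset V} (nB : n ∈ B) (n0 : n ⊆ pl B c (bl B a b)) : ∃ P, Pla B q P ∧ x ∈ P ∧ n ⊆ P := by
  have H := F.H
  -- a Veblen point on the block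
  have key : ∀ v, Veblen B v → v ∈ n → ∃ P, Pla B q P ∧ x ∈ P ∧ n ⊆ P := by
    intro v hv hvn
    obtain ⟨y, yn, yv⟩ := H.two_pts nB v
    have xy : x ≠ y := fun h => hx (h ▸ n0 yn)
    have vn : v ∉ bl B x y := by
      intro h
      apply hx
      have := F.Q.cl v (n0 hvn) y (n0 yn) yv.symm
      rw [bl_of H xy h (H.b2 xy) yv.symm] at this
      exact this (H.b1 xy)
    have P := pla_pl H hv (H.bB xy) vn
    have hs : bl B x y ⊆ pl B v (bl B x y) := H.L_sub vn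
    refine ⟨_, P, hs (H.b1 xy), ?_⟩
    rw [← H.bl_eq yv.symm nB hvn yn]
    exact P.cl v (H.p_mem (H.bB xy) vn) y (hs (H.b2 xy)) yv.symm
  by_cases ha : a ∈ n
  · exact key a F.va ha
  by_cases hb : b ∈ n
  · exact key b F.vb hb
  obtain ⟨z, zE, zn⟩ := F.Q.meet H (H.bB F.hab) nB F.E0 n0
  have za : z ≠ a := fun h => ha (h ▸ zn)
  have zb : z ≠ b := fun h => hb (h ▸ zn)
  have dn : d ∉ n := fun h => F.nd (n0 h)
  have P := pla_pl H F.vd nB dn
  have nP : n ⊆ pl B d n := H.L_sub dn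
  have nE : ¬ bl B a b ⊆ pl B d n := by
    intro h
    obtain ⟨y, yn, yz⟩ := H.two_pts nB z
    have yE : y ∉ bl B a b := by
      intro hy
      apply ha
      rw [← H.bl_eq yz.symm nB zn yn, bl_of H F.hab zE hy yz.symm]
      exact H.b1 F.hab
    apply F.nd
    rw [F.Q.uniq H P (n0 yn) (nP yn) (H.bB F.hab) F.E0 h yE]
    exact H.p_mem nB dn
  have h0 : Thru B q S a b z (pl B d n) := by
    refine ⟨P, pl_sub F.T.cl F.sd (n0.trans F.sub) dn, nP zn, ?_, ?_⟩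
    · intro h
      apply nE
      rw [← bl_of H F.hab (H.b1 F.hab) zE za.symm]
      exact P.cl a h z (nP zn) za.symm
    · intro h
      apply nE
      rw [← bl_of H F.hab (H.b2 F.hab) zE zb.symm]
      exact P.cl b h z (nP zn) zb.symm
  obtain ⟨R, hR, xR, hR2⟩ := star H F.T F.va F.vb F.vc F.hab zE za zb F.nc F.sa F.sb F.sc h0 xS hx
  exact ⟨R, hR, xR, fun v hv => hR2 v (nP hv) (n0 hv)⟩

/-- blocks that meet outside the plane `abc` -/
theorem Tet.out (F : Tet B q S a b c d) {x : V} (xS : x ∈ S) (hx : x ∉ pl B c (bl B a b))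
    {l m : Finset V} (lB : l ∈ B) (mB : m ∈ B) (lS : l ⊆ S) (mS : m ⊆ S) (lm : l ≠ m)
    (xl : x ∈ l) (xm : x ∈ m) : ∃ P, Pla B q P ∧ l ⊆ P ∧ m ⊆ P := by
  have H := F.H
  have foot : ∀ l ∈ B, l ⊆ S → x ∈ l → ∃ y ∈ l, y ∈ pl B c (bl B a b) ∧ x ≠ y := by
    intro l lB lS xl
    obtain ⟨y, yl, yx⟩ := H.two_pts lB x
    have h := pj_spec H F.T xS F.Q F.sub hx (lS yl) yx
    rw [H.bl_eq yx.symm lB xl yl] at h
    exact ⟨_, h.2, h.1, fun e => hx (by rw [e]; exact h.1)⟩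
  obtain ⟨y, yl, y0, xy⟩ := foot l lB lS xl
  obtain ⟨t, tm, t0, xt⟩ := foot m mB mS xm
  have yt : y ≠ t := by
    rintro rfl
    exact lm (H.un xy lB mB xl yl xm tm)
  obtain ⟨P, hP, xP, nP⟩ := F.blk xS hx (H.bB yt) (F.Q.cl y y0 t t0 yt)
  refine ⟨P, hP, ?_, ?_⟩
  · rw [← H.bl_eq xy lB xl yl]
    exact hP.cl x xP y (nP (H.b1 yt)) xy
  · rw [← H.bl_eq xt mB xm tm]
    exact hP.cl x xP t (nP (H.b2 yt)) xt

/-- blocks that meet off the block `ab` -/
theorem Tet.off (F : Tet B q S a b c d) {x : V} (xS : x ∈ S) (hx : x ∉ bl B a b)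
    {l m : Finset V} (lB : l ∈ B) (mB : m ∈ B) (lS : l ⊆ S) (mS : m ⊆ S) (lm : l ≠ m)
    (xl : x ∈ l) (xm : x ∈ m) : ∃ P, Pla B q P ∧ l ⊆ P ∧ m ⊆ P := by
  have H := F.H
  by_cases h1 : x ∈ pl B c (bl B a b)
  · have F' := F.swap'
    refine F'.out xS ?_ lB mB lS mS lm xl xm
    intro h2
    apply F.nd
    rw [F.Q.uniq H F'.Q h1 h2 (H.bB F.hab) F.E0 F'.E0 hx]
    exact F'.c0
  · exact F.out xS h1 lB mB lS mS lm xl xm

theorem Tet.all (F : Tet B q S a b c d) {x : V} (xS : x ∈ S)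
    {l m : Finset V} (lB : l ∈ B) (mB : m ∈ B) (lS : l ⊆ S) (mS : m ⊆ S) (lm : l ≠ m)
    (xl : x ∈ l) (xm : x ∈ m) : ∃ P, Pla B q P ∧ l ⊆ P ∧ m ⊆ P := by
  have H := F.H
  by_cases hx : x ∈ bl B a b
  swap
  · exact F.off xS hx lB mB lS mS lm xl xm
  by_cases hxa : x = a
  · -- use the block `bc`
    have F' := F.swap.turn.1
    refine F'.off xS ?_ lB mB lS mS lm xl xm
    rw [hxa]
    exact F'.nc
  · have F' := F.turn.1
    refine F'.off xS ?_ lB mB lS mS lm xl xm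
    intro h
    apply F'.nc
    have hac := F'.hab
    have e1 : bl B x a = bl B a b := bl_of H F.hab hx (H.b1 F.hab) hxa
    have e2 : bl B x a = bl B a c := bl_of H hac h (H.b1 hac) hxa
    rw [← e2, e1]
    exact H.b2 F.hab

end

end Pool.Agent.Helper19.G4
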