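import Mathlib
import Pool.Agent.Helper19.G4.Tet

set_option autoImplicit false
set_option linter.unusedSectionVars false

/-!
# Subsystems generated by Veblen points
-/

namespace Pool.Agent.Helper19.G4

open Finset Pool.Agent.V11100.VB Pool.Agent.Helper19.VS Pool.Agent.Helper19.V3

variable {V : Type} [DecidableEq V] [Fintype V] {B : Finset (Finset V)} {q : ℕ}

/-- closed sets -/
def Cl (B : Finset (Finset V)) (A : Finset V) : Prop :=
  ∀ x ∈ A, ∀ y ∈ A, x ≠ y → bl B x y ⊆ A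

/-- closed, and generated by Veblen points -/
structure VG (B : Finset (Finset V)) (A : Finset V) : Prop where
  cl : Cl B A
  gen : ∀ C, C ⊆ A → Cl B C → (∀ p ∈ A, Veblen B p → p ∈ C) → C = A

/-- the cone -/
noncomputable def cone (B : Finset (Finset V)) (p : V) (A : Finset V) : Finset V :=
  insert p (pl B p A)

theorem mem_cone (H : LS B q) {p : V} {A : Finset V} (hp : p ∉ A) {x : V} :
    x ∈ cone B p A ↔ x = p ∨ (x ≠ p ∧ ∃ y ∈ A, y ∈ bl B p x) := by
  unfold cone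
  rw [mem_insert]
  by_cases hx : x = p
  · simp [hx]
  · rw [H.mem_pl hp hx]
    simp [hx]

theorem Cl.inter {A C : Finset V} (hA : Cl B A) (hC : Cl B C) : Cl B (A ∩ C) := by
  intro x hx y hy hxy
  rw [mem_inter] at hx hy
  exact subset_inter (hA x hx.1 y hy.1 hxy) (hC x hx.2 y hy.2 hxy)

theorem card_cone' (H : LS B q) {A : Finset V} (hA : Cl B A) {p : V} (hp : p ∉ A) :
    (cone B p A).card = A.card * q + 1 := by
  rcases A.eq_empty_or_nonempty with rfl | hne
  · simp [cone, pl]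
  · have h1 : p ∈ pl B p A := by
      obtain ⟨y, hy⟩ := hne
      unfold pl
      rw [mem_biUnion]
      exact ⟨y, hy, H.b1 (fun e => hp (e ▸ hy))⟩
    unfold cone
    rw [insert_eq_of_mem h1]
    exact card_cone H hA hp hne

theorem cone_sub {A C : Finset V} (hA : Cl B A) {p : V} (hp : p ∈ A) (hC : C ⊆ A)
    (hpC : p ∉ C) : cone B p C ⊆ A := by
  unfold cone
  rw [insert_subset_iff]
  exact ⟨hp, pl_sub hA hp hC hpC⟩

theorem sub_cone (H : LS B q) {A : Finset V} {p : V} (hp : p ∉ A) : A ⊆ cone B p A := by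
  intro y hy
  have hpy : p ≠ y := fun e => hp (e ▸ hy)
  rw [mem_cone H hp]
  exact Or.inr ⟨hpy.symm, y, hy, H.b2 hpy⟩

theorem Cl.cone (H : LS B q) {p : V} (hp : Veblen B p) {A : Finset V} (hA : Cl B A)
    (hpA : p ∉ A) : Cl B (cone B p A) := by
  have key : ∀ {u y : V}, y ∈ A → u ∈ bl B p y → u ∈ G4.cone B p A := by
    intro u y hy hu
    have hpy : p ≠ y := fun e => hpA (e ▸ hy)
    rw [mem_cone H hpA]
    by_cases h : u = p
    · exact Or.inl h
    · refine Or.inr ⟨h, y, hy, ?_⟩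
      rw [bl_of H hpy (H.b1 hpy) hu (Ne.symm h)]
      exact H.b2 hpy
  intro x hx x' hx' hxx
  by_cases hpx : p ∈ bl B x x'
  · by_cases hxp : x = p
    · have hx'p : x' ≠ p := fun e => hxx (hxp.trans e.symm)
      rcases (mem_cone H hpA).1 hx' with h | ⟨_, y, hy, hyx⟩
      · exact absurd h hx'p
      have hpy : p ≠ y := fun e => hpA (e ▸ hy)
      rw [hxp, ← bl_of H hx'p.symm (H.b1 hx'p.symm) hyx hpy]
      intro u hu
      exact key hy hu
    · rcases (mem_cone H hpA).1 hx with h | ⟨_, y, hy, hyx⟩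
      · exact absurd h hxp
      have hpy : p ≠ y := fun e => hpA (e ▸ hy)
      have e1 : bl B p x = bl B x x' := bl_of H hxx hpx (H.b1 hxx) (Ne.symm hxp)
      rw [← e1, ← bl_of H (Ne.symm hxp) (H.b1 (Ne.symm hxp)) hyx hpy]
      intro u hu
      exact key hy hu
  · have hxp : x ≠ p := fun e => hpx (e ▸ H.b1 hxx)
    have hx'p : x' ≠ p := fun e => hpx (e ▸ H.b2 hxx)
    rcases (mem_cone H hpA).1 hx with h | ⟨_, y, hy, hyx⟩
    · exact absurd h hxp
    rcases (mem_cone H hpA).1 hx' with h | ⟨_, y', hy', hyx'⟩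
    · exact absurd h hx'p
    have hpy : p ≠ y := fun e => hpA (e ▸ hy)
    have hpy' : p ≠ y' := fun e => hpA (e ▸ hy')
    have e1 : bl B p y = bl B p x := bl_of H hxp.symm (H.b1 hxp.symm) hyx hpy
    have e2 : bl B p y' = bl B p x' := bl_of H hx'p.symm (H.b1 hx'p.symm) hyx' hpy'
    have hyy : y ≠ y' := by
      rintro rfl
      apply hpx
      have e3 : bl B p x = bl B p x' := e1.symm.trans e2
      have e4 : x' ∈ bl B p x := e3 ▸ H.b2 hx'p.symm
      rw [bl_of H hxp.symm (H.b2 hxp.symm) e4 hxx]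
      exact H.b1 hxp.symm
    have hg : bl B y y' ⊆ A := hA y hy y' hy' hyy
    have hpg : p ∉ bl B y y' := fun h => hpA (hg h)
    have P2 := pla_pl H hp (H.bB hyy) hpg
    have hx2 : x ∈ pl B p (bl B y y') := (H.mem_pl hpg hxp).2 ⟨y, H.b1 hyy, hyx⟩
    have hx2' : x' ∈ pl B p (bl B y y') := (H.mem_pl hpg hx'p).2 ⟨y', H.b2 hyy, hyx'⟩
    intro u hu
    have hu2 := P2.cl x hx2 x' hx2' hxx hu
    unfold pl at hu2
    rw [mem_biUnion] at hu2
    obtain ⟨t, ht, hut⟩ := hu2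
    exact key (hg ht) hut

theorem Cl.empty : Cl B (∅ : Finset V) := fun x hx => absurd hx (notMem_empty x)

theorem Cl.single (p : V) : Cl B ({p} : Finset V) := by
  intro x hx y hy hxy
  rw [mem_singleton] at hx hy
  exact absurd (hx.trans hy.symm) hxy

theorem Cl.block (H : LS B q) {b : Finset V} (hb : b ∈ B) : Cl B b := by
  intro x hx y hy hxy
  rw [H.bl_eq hxy hb hx hy]

theorem VG.empty : VG B (∅ : Finset V) := ⟨Cl.empty, fun _ h _ _ => subset_empty.1 h⟩

/-- a Veblen point outside a given proper closed subset -/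
theorem VG.out {A : Finset V} (hA : VG B A) {C : Finset V} (hC : C ⊆ A) (hcl : Cl B C)
    (hne : C ≠ A) : ∃ p ∈ A, Veblen B p ∧ p ∉ C := by
  by_contra hcon
  push Not at hcon
  exact hne (hA.gen C hC hcl fun p hp hv => hcon p hp hv)

theorem VG.cone (H : LS B q) {A : Finset V} (hA : VG B A) {p : V} (hp : Veblen B p)
    (hpA : p ∉ A) : VG B (cone B p A) := by
  refine ⟨hA.cl.cone H hp hpA, fun C hC hcl hgen => ?_⟩
  have hpC : p ∈ C := hgen p (by rw [mem_cone H hpA]; exact Or.inl rfl) hp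
  have h1 : C ∩ A = A := by
    refine hA.gen _ inter_subset_right (hcl.inter hA.cl) fun r hr hv => ?_
    rw [mem_inter]
    exact ⟨hgen r (sub_cone H hpA hr) hv, hr⟩
  have h2 : A ⊆ C := by
    rw [← h1]
    exact inter_subset_left
  exact Subset.antisymm hC (cone_sub hcl hpC h2 hpA)

/-- a hyperplane that does not contain a given Veblen point -/
theorem VG.hyp (H : LS B q) {A : Finset V} (hA : VG B A) {p : V} (hp : Veblen B p) (hpA : p ∈ A) :
    ∃ C, VG B C ∧ p ∉ C ∧ C ⊆ A ∧ G4.cone B p C = A := by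
  classical
  obtain ⟨C, hC, hmax⟩ := exists_max_image (univ.filter fun C : Finset V =>
    VG B C ∧ C ⊆ A ∧ p ∉ C) card ⟨∅, by
      rw [mem_filter]
      exact ⟨mem_univ _, VG.empty, empty_subset _, notMem_empty _⟩⟩
  rw [mem_filter] at hC
  obtain ⟨-, hC1, hC2, hC3⟩ := hC
  refine ⟨C, hC1, hC3, hC2, ?_⟩
  refine hA.gen _ (cone_sub hA.cl hpA hC2 hC3) (hC1.cl.cone H hp hC3) fun r hr hv => ?_
  rw [mem_cone H hC3]
  by_cases hrp : r = p
  · exact Or.inl hrp
  refine Or.inr ⟨hrp, ?_⟩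
  by_cases hrC : r ∈ C
  · exact ⟨r, hrC, H.b2 (Ne.symm hrp)⟩
  have h1 := hC1.cone H hv hrC
  have h2 := cone_sub hA.cl hr hC2 hrC
  have h3 : p ∈ G4.cone B r C := by
    by_contra hcon
    have h4 := hmax (G4.cone B r C) (by
      rw [mem_filter]
      exact ⟨mem_univ _, h1, h2, hcon⟩)
    rw [card_cone' H hC1.cl hrC] at h4
    have := H.hq
    nlinarith
  rw [mem_cone H hrC] at h3
  rcases h3 with h3 | ⟨_, y, hy, hyr⟩
  · exact absurd h3.symm hrp
  refine ⟨y, hy, ?_⟩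
  rw [bl_comm H (Ne.symm hrp)]
  exact hyr

/-- two blocks that meet, one of them through a Veblen point -/
theorem veb (H : LS B q) {p x : V} (hp : Veblen B p) {l m : Finset V} (lB : l ∈ B) (mB : m ∈ B)
    (lm : l ≠ m) (xl : x ∈ l) (xm : x ∈ m) (hpl : p ∈ l) : ∃ P, Pla B q P ∧ l ⊆ P ∧ m ⊆ P := by
  by_cases hpm : p ∈ m
  · obtain ⟨y, yl, yp⟩ := H.two_pts lB p
    obtain ⟨z, zm, zp⟩ := H.two_pts mB p
    have yz : y ≠ z := by
      rintro rfl
      exact yp (H.pt lB mB lm yl zm hpl hpm)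
    have pn : p ∉ bl B y z := by
      intro h
      apply lm
      rw [← H.bl_eq yp.symm lB hpl yl, ← H.bl_eq zp.symm mB hpm zm,
        bl_of H yz h (H.b1 yz) yp.symm, bl_of H yz h (H.b2 yz) zp.symm]
    have P := pla_pl H hp (H.bB yz) pn
    have hs : bl B y z ⊆ pl B p (bl B y z) := H.L_sub pn
    have ps := H.p_mem (H.bB yz) pn
    refine ⟨_, P, ?_, ?_⟩
    · rw [← H.bl_eq yp.symm lB hpl yl]
      exact P.cl p ps y (hs (H.b1 yz)) yp.symm
    · rw [← H.bl_eq zp.symm mB hpm zm]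
      exact P.cl p ps z (hs (H.b2 yz)) zp.symm
  · have P := pla_pl H hp mB hpm
    have hs : m ⊆ pl B p m := H.L_sub hpm
    have px : p ≠ x := fun e => hpm (e ▸ xm)
    refine ⟨_, P, ?_, hs⟩
    rw [← H.bl_eq px lB hpl xl]
    exact P.cl p (H.p_mem mB hpm) x (hs xm) px

end Pool.Agent.Helper19.G4
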