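import Mathlib
import Pool.Agent.Helper19.G4.Gen
import Pool.Agent.Helper19.A3.Out

set_option autoImplicit false
set_option linter.unusedSectionVars false

/-!
# Subsystems generated by Veblen points are projective spaces
-/

namespace Pool.Agent.Helper19.G4

open Finset Pool.Agent.V11100.VB Pool.Agent.Helper19.VS Pool.Agent.Helper19.V3

variable {V : Type} [DecidableEq V] [Fintype V] {B : Finset (Finset V)} {q : ℕ}

/-- a three-dimensional subsystem generated by Veblen points contains four independent ones -/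
theorem exists_tet (H : LS B q) {A : Finset V} (hA : VG B A) (T : Spc B q A) :
    ∃ a b c d, Tet B q A a b c d := by
  have hq := H.hq
  have k1 : q + 1 < (q + 1) * q + 1 := by nlinarith
  have k2 : ((q + 1) * q + 1) * 2 ≤ ((q + 1) * q + 1) * q := Nat.mul_le_mul_left _ hq
  obtain ⟨a, aA, va, -⟩ := hA.out (empty_subset A) Cl.empty (by
    intro h
    have := T.card
    rw [← h, card_empty] at this
    omega)
  obtain ⟨b, bA, vb, hb⟩ := hA.out (singleton_subset_iff.2 aA) (Cl.single a) (by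
    intro h
    have := T.card
    rw [← h, card_singleton] at this
    omega)
  have hab : a ≠ b := fun h => hb (mem_singleton.2 h.symm)
  obtain ⟨c, cA, vc, hc⟩ := hA.out (T.cl a aA b bA hab) (Cl.block H (H.bB hab)) (by
    intro h
    have := T.card
    rw [← h, H.size _ (H.bB hab)] at this
    omega)
  have Q := pla_pl H vc (H.bB hab) hc
  obtain ⟨d, dA, vd, hd⟩ := hA.out (pl_sub T.cl cA (T.cl a aA b bA hab) hc) Q.cl (by
    intro h
    have := T.card
    rw [← h, Q.card] at this
    omega)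
  exact ⟨a, b, c, d, H, T, va, vb, vc, vd, aA, bA, cA, dA, hab, hc, hd⟩

theorem VG.plane (H : LS B q) : ∀ (N : ℕ) (A : Finset V), A.card = N → VG B A →
    ∀ x ∈ A, ∀ l ∈ B, ∀ m ∈ B, l ⊆ A → m ⊆ A → l ≠ m → x ∈ l → x ∈ m →
      ∃ P, Pla B q P ∧ l ⊆ P ∧ m ⊆ P := by
  intro N
  induction N using Nat.strong_induction_on with
  | _ N ih =>
  intro A hN hA x xA l lB m mB lA mA lm xl xm
  by_contra hno
  have hq := H.hq
  obtain ⟨y, yl, yx⟩ := H.two_pts lB x
  obtain ⟨z, zm, zx⟩ := H.two_pts mB x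
  have el : bl B x y = l := H.bl_eq yx.symm lB xl yl
  have em : bl B x z = m := H.bl_eq zx.symm mB xm zm
  have key : ∀ p ∈ A, Veblen B p → ∃ U, Spc B q U ∧ p ∈ U ∧ U ⊆ A ∧ l ⊆ U ∧ m ⊆ U := by
    intro p pA hp
    have pl' : p ∉ l := fun h => hno (veb H hp lB mB lm xl xm h)
    have pm : p ∉ m := fun h => hno (by
      obtain ⟨P, hP, h1, h2⟩ := veb H hp mB lB lm.symm xm xl h
      exact ⟨P, hP, h2, h1⟩)
    obtain ⟨C, hC, pC, CA, hcone⟩ := hA.hyp H hp pA
    have px : p ≠ x := fun h => pl' (h ▸ xl)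
    have py : p ≠ y := fun h => pl' (h ▸ yl)
    have pz : p ≠ z := fun h => pm (h ▸ zm)
    have proj : ∀ t ∈ A, p ≠ t → ∃ s ∈ C, s ∈ bl B p t := by
      intro t ht hpt
      rw [← hcone, mem_cone H pC] at ht
      rcases ht with ht | ht
      · exact absurd ht.symm hpt
      · exact ht.2
    obtain ⟨x', x'C, hx'⟩ := proj x xA px
    obtain ⟨y', y'C, hy'⟩ := proj y (lA yl) py
    obtain ⟨z', z'C, hz'⟩ := proj z (mA zm) pz
    have px' : p ≠ x' := fun h => pC (h ▸ x'C)
    have py' : p ≠ y' := fun h => pC (h ▸ y'C)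
    have pz' : p ≠ z' := fun h => pC (h ▸ z'C)
    have flip : ∀ {s t : V}, p ≠ t → p ≠ s → s ∈ bl B p t → t ∈ bl B p s := by
      intro s t h1 h2 h
      rw [bl_of H h1 (H.b1 h1) h h2]
      exact H.b2 h1
    have xy' : x' ≠ y' := by
      intro h
      apply pl'
      have e1 : bl B p x' = bl B p x := bl_of H px (H.b1 px) hx' px'
      have e2 : bl B p y' = bl B p y := bl_of H py (H.b1 py) hy' py'
      have h3 : y ∈ bl B p x := by rw [← e1, h, e2]; exact H.b2 py
      rw [← el, bl_of H px (H.b2 px) h3 yx.symm]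
      exact H.b1 px
    have xz' : x' ≠ z' := by
      intro h
      apply pm
      have e1 : bl B p x' = bl B p x := bl_of H px (H.b1 px) hx' px'
      have e2 : bl B p z' = bl B p z := bl_of H pz (H.b1 pz) hz' pz'
      have h3 : z ∈ bl B p x := by rw [← e1, h, e2]; exact H.b2 pz
      rw [← em, bl_of H px (H.b2 px) h3 zx.symm]
      exact H.b1 px
    have lC : bl B x' y' ⊆ C := hC.cl x' x'C y' y'C xy'
    have mC : bl B x' z' ⊆ C := hC.cl x' x'C z' z'C xz'
    have pn : p ∉ bl B x' y' := fun h => pC (lC h)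
    have zn : z' ∉ bl B x' y' := by
      intro h
      apply hno
      have P := pla_pl H hp (H.bB xy') pn
      have hs : bl B x' y' ⊆ pl B p (bl B x' y') := H.L_sub pn
      have ps : p ∈ pl B p (bl B x' y') := H.p_mem (H.bB xy') pn
      have xs := P.cl p ps x' (hs (H.b1 xy')) px' (flip px px' hx')
      have ys := P.cl p ps y' (hs (H.b2 xy')) py' (flip py py' hy')
      have zs := P.cl p ps z' (hs h) pz' (flip pz pz' hz')
      refine ⟨_, P, ?_, ?_⟩
      · rw [← el]; exact P.cl x xs y ys yx.symm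
      · rw [← em]; exact P.cl x xs z zs zx.symm
    have lmne : bl B x' y' ≠ bl B x' z' := fun h => zn (h ▸ H.b2 xz')
    have hcard : C.card < N := by
      rw [← hN, ← hcone, card_cone' H hC.cl pC]
      nlinarith
    obtain ⟨D, hD, hD1, hD2⟩ := ih C.card hcard C rfl hC x' x'C _ (H.bB xy') _ (H.bB xz') lC mC
      lmne (H.b1 xy') (H.b1 xz')
    have DC : D ⊆ C := by
      rw [← hD.eq H (hD2 (H.b2 xz')) (H.bB xy') hD1 zn]
      exact pl_sub hC.cl z'C lC zn
    have pD : p ∉ D := fun h => pC (DC h)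
    have U := spc_cone H hp hD pD
    have pU : p ∈ pl B p D := vertex_mem H hD pD
    have DU : D ⊆ pl B p D := by
      intro t ht
      have hpt : p ≠ t := fun e => pD (e ▸ ht)
      unfold pl
      rw [mem_biUnion]
      exact ⟨t, ht, H.b2 hpt⟩
    have xU := U.cl p pU x' (DU (hD1 (H.b1 xy'))) px' (flip px px' hx')
    have yU := U.cl p pU y' (DU (hD1 (H.b2 xy'))) py' (flip py py' hy')
    have zU := U.cl p pU z' (DU (hD2 (H.b2 xz'))) pz' (flip pz pz' hz')
    refine ⟨_, U, pU, pl_sub hA.cl pA (DC.trans CA) pD, ?_, ?_⟩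
    · rw [← el]; exact U.cl x xU y yU yx.symm
    · rw [← em]; exact U.cl x xU z zU zx.symm
  obtain ⟨p, pA, hp, -⟩ := hA.out (empty_subset A) Cl.empty (by
    intro h
    rw [← h] at xA
    exact notMem_empty _ xA)
  obtain ⟨U, hU, pU, UA, lU, mU⟩ := key p pA hp
  by_cases hUA : U = A
  · subst hUA
    obtain ⟨a, b, c, d, F⟩ := exists_tet H hA hU
    exact hno (F.all xA lB mB lA mA lm xl xm)
  obtain ⟨r, rA, hr, rU⟩ := hA.out UA hU.cl hUA
  obtain ⟨W, hW, rW, WA, lW, mW⟩ := key r rA hr
  have hI : Cl B (U ∩ W) := Cl.inter hU.cl hW.cl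
  have rI : r ∉ U ∩ W := fun h => rU (mem_inter.1 h).1
  have lI : l ⊆ U ∩ W := subset_inter lU lW
  have mI : m ⊆ U ∩ W := subset_inter mU mW
  have zl : z ∉ l := fun h => zx (H.pt lB mB lm h zm xl xm)
  apply hno
  refine ⟨U ∩ W, ⟨?_, hI⟩, lI, mI⟩
  apply le_antisymm
  · have h1 := card_le_card (cone_sub hW.cl rW inter_subset_right rI)
    rw [card_cone' H hI rI, hW.card] at h1
    have h2 : (U ∩ W).card * q ≤ ((q + 1) * q + 1) * q := by omega
    exact Nat.le_of_mul_le_mul_right h2 (by omega)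
  · rw [← H.card_pl lB zl]
    exact card_le_card (pl_sub hI (mI zm) lI zl)

/-- the number of points of a subsystem generated by Veblen points -/
theorem VG.card (H : LS B q) : ∀ (N : ℕ) (A : Finset V), A.card = N → VG B A →
    ∃ k, A.card = ∑ i ∈ range k, q ^ i := by
  intro N
  induction N using Nat.strong_induction_on with
  | _ N ih =>
  intro A hN hA
  by_cases h : A = ∅
  · exact ⟨0, by rw [h]; rfl⟩
  obtain ⟨p, pA, hp, -⟩ := hA.out (empty_subset A) Cl.empty (Ne.symm h)
  obtain ⟨C, hC, pC, CA, hcone⟩ := hA.hyp H hp pA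
  have e := card_cone' H hC.cl pC
  rw [hcone] at e
  have hq := H.hq
  obtain ⟨k, hk⟩ := ih C.card (by rw [← hN, e]; nlinarith) C rfl hC
  refine ⟨k + 1, ?_⟩
  rw [e, hk, sum_range_succ', pow_zero, sum_mul]
  simp only [pow_succ]

/-- If the Veblen points generate the whole system then all points are Veblen points. -/
theorem allVeblen (H : LS B q) (hA : VG B univ) (x : V) : Veblen B x :=
  A3.comp_veblen H fun l hl m hm hlm xl xm =>
    VG.plane H _ univ rfl hA x (mem_univ x) l hl m hm (subset_univ _) (subset_univ _) hlm xl xm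

end Pool.Agent.Helper19.G4
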